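import Pool.Agent.H37.HH.QUO

/-!
# Module PHN: Euler's function
-/

set_option autoImplicit false

open NumberField

namespace Pool.Agent.H17.HH

open Pool.Agent.H33.HH Pool.Agent.H28.RC Pool.Agent.H37.CV
open Pool.Agent.H3.CV (nm_mul mem_pf)

section

variable {K : Type} [Field K] [NumberField K]

theorem phn_np_two (P : PrI K) : 2 ≤ np P := by
  unfold np nm
  have h0 : Ideal.absNorm P.1 ≠ 0 := fun h => P.2.2 (Ideal.absNorm_eq_zero_iff.1 h)
  have h1 : Ideal.absNorm P.1 ≠ 1 := fun h => P.2.1.ne_top (Ideal.absNorm_eq_one_iff.1 h)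
  have : 2 ≤ Ideal.absNorm P.1 := by omega
  exact_mod_cast this

theorem phn_nm_pos {f : Ideal (𝓞 K)} (hf : f ≠ ⊥) : 0 < nm f := by
  unfold nm
  have h0 : Ideal.absNorm f ≠ 0 := fun h => hf (Ideal.absNorm_eq_zero_iff.1 h)
  exact_mod_cast Nat.pos_of_ne_zero h0

theorem phn_fac (P : PrI K) : 0 < 1 - 1 / np P ∧ 1 - 1 / np P ≤ 1 := by
  have h := phn_np_two P
  have h0 : 0 < np P := by linarith
  constructor
  · rw [sub_pos, div_lt_one h0]
    linarith
  · have : 0 ≤ 1 / np P := by positivity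
    linarith

theorem ph_pos {f : Ideal (𝓞 K)} (hf : f ≠ ⊥) : 0 < ph f :=
  mul_pos (phn_nm_pos hf) (Finset.prod_pos fun P _ => (phn_fac P).1)

theorem ph_le {f : Ideal (𝓞 K)} (hf : f ≠ ⊥) : ph f ≤ nm f := by
  unfold ph
  have h : ∏ P ∈ pf f, (1 - 1 / np P) ≤ 1 :=
    Finset.prod_le_one (fun P _ => (phn_fac P).1.le) fun P _ => (phn_fac P).2
  calc nm f * ∏ P ∈ pf f, (1 - 1 / np P) ≤ nm f * 1 :=
        mul_le_mul_of_nonneg_left h (phn_nm_pos hf).le
    _ = nm f := mul_one _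

open scoped Classical in
theorem ph_mul {f g : Ideal (𝓞 K)} (hf : f ≠ ⊥) (hg : g ≠ ⊥) (hfg : f ⊔ g = ⊤) :
    ph (f * g) = ph f * ph g := by
  obtain ⟨-, -, -, h⟩ := Pool.Agent.H37.HH.pf_QUO K f hf
  obtain ⟨hd, hm, -, -⟩ := h g hg hfg
  have hu : pf (f * g) = pf f ∪ pf g := by
    ext P
    rw [hm, Finset.mem_union]
  unfold ph
  rw [hu, Finset.prod_union hd, nm_mul]
  ring

theorem ph_pow (P : PrI K) (e : ℕ) : ph (P.1 ^ (e + 1)) = np P ^ e * (np P - 1) := by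
  have hne : P.1 ^ (e + 1) ≠ ⊥ := pow_ne_zero _ P.2.2
  have hpf : pf (P.1 ^ (e + 1)) = {P} := by
    ext Q
    rw [mem_pf hne, Finset.mem_singleton]
    constructor
    · intro h
      have h1 : P.1 ≤ Q.1 := Q.2.1.le_of_pow_le h
      have h2 : P.1.IsMaximal := P.2.1.isMaximal P.2.2
      exact (Subtype.ext (h2.eq_of_le Q.2.1.ne_top h1)).symm
    · rintro rfl
      exact Ideal.pow_le_self (Nat.succ_ne_zero e)
  have hn : nm (P.1 ^ (e + 1)) = np P ^ (e + 1) := by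
    unfold np nm
    rw [map_pow]
    push_cast
    rfl
  have h0 : np P ≠ 0 := by
    have := phn_np_two P
    linarith
  unfold ph
  rw [hpf, Finset.prod_singleton, hn, pow_succ]
  field_simp

theorem units_pow (P : Ideal (𝓞 K)) (hP : Prime P) (e : ℕ) :
    Nat.card (𝓞 K ⧸ P ^ (e + 1))ˣ + Ideal.absNorm P ^ e = Ideal.absNorm P ^ (e + 1) := by
  classical
  set a := e + 1 with haa
  have ha : a ≠ 0 := Nat.succ_ne_zero e
  have hPp : P.IsPrime := Ideal.isPrime_of_prime hP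
  have hPa : P ^ a ≠ ⊥ := pow_ne_zero _ hP.ne_zero
  have hfin : Finite (𝓞 K ⧸ P ^ a) := Ideal.finiteQuotientOfFreeOfNeBot _ hPa
  have hle : P ^ a ≤ P := Ideal.pow_le_self ha
  have hmax : P.IsMaximal := hPp.isMaximal hP.ne_zero
  set m : Ideal (𝓞 K ⧸ P ^ a) := P.map (Ideal.Quotient.mk (P ^ a)) with hm
  have hmem : ∀ x : 𝓞 K, Ideal.Quotient.mk (P ^ a) x ∈ m ↔ x ∈ P := by
    intro x
    rw [hm, ← Ideal.mem_comap, Ideal.comap_map_of_surjective _ Ideal.Quotient.mk_surjective,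
      ← RingHom.ker_eq_comap_bot, Ideal.mk_ker, sup_of_le_left hle]
  have hnt : m ≠ ⊤ := by
    intro h
    have h2 : Ideal.Quotient.mk (P ^ a) 1 ∈ m := by
      rw [h]
      exact Submodule.mem_top
    rw [hmem] at h2
    exact hPp.ne_top ((Ideal.eq_top_iff_one P).2 h2)
  have hnu : ∀ x : 𝓞 K ⧸ P ^ a, ¬ IsUnit x → x ∈ m := by
    intro x hx
    obtain ⟨y, rfl⟩ := Ideal.Quotient.mk_surjective x
    rw [hmem]
    by_contra hy
    apply hx
    have h1 : Ideal.span {y} ⊔ P = ⊤ := by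
      have h2 : P < Ideal.span {y} ⊔ P := by
        refine lt_of_le_of_ne le_sup_right fun h => hy ?_
        rw [h]
        exact Ideal.mem_sup_left (Ideal.mem_span_singleton_self y)
      exact hmax.1.2 _ h2
    have h3 : IsCoprime (Ideal.span {y}) (P ^ a) :=
      ((Ideal.isCoprime_iff_sup_eq).2 h1).pow_right
    rw [Ideal.isCoprime_iff_sup_eq, Ideal.eq_top_iff_one, Submodule.mem_sup] at h3
    obtain ⟨u, hu, v, hv, huv⟩ := h3
    obtain ⟨t, rfl⟩ := Ideal.mem_span_singleton'.1 hu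
    refine IsUnit.of_mul_eq_one (Ideal.Quotient.mk (P ^ a) t) ?_
    rw [← map_mul, mul_comm, ← map_one (Ideal.Quotient.mk (P ^ a)),
      Ideal.Quotient.mk_eq_mk_iff_sub_mem, ← huv]
    have : t * y - (t * y + v) = -v := by ring
    rw [this]
    exact neg_mem hv
  have hun : ∀ x : 𝓞 K ⧸ P ^ a, IsUnit x → x ∉ m := fun x hx h =>
    hnt (Ideal.eq_top_of_isUnit_mem m h hx)
  let φ : (𝓞 K ⧸ P ^ a)ˣ ⊕ m → 𝓞 K ⧸ P ^ a := Sum.elim (fun u => (u : 𝓞 K ⧸ P ^ a)) fun x => x.1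
  have hφ : Function.Bijective φ := by
    constructor
    · rintro (u | x) (v | y) h
      · exact congrArg Sum.inl (Units.ext h)
      · exact absurd (show (u : 𝓞 K ⧸ P ^ a) ∈ m by
          have h' : (u : 𝓞 K ⧸ P ^ a) = y.1 := h
          rw [h']; exact y.2) (hun _ u.isUnit)
      · exact absurd (show (v : 𝓞 K ⧸ P ^ a) ∈ m by
          have h' : x.1 = (v : 𝓞 K ⧸ P ^ a) := h
          rw [← h']; exact x.2) (hun _ v.isUnit)
      · exact congrArg Sum.inr (Subtype.ext h)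
    · intro x
      by_cases hx : IsUnit x
      · exact ⟨Sum.inl hx.unit, hx.unit_spec⟩
      · exact ⟨Sum.inr ⟨x, hnu x hx⟩, rfl⟩
  have h1 := Nat.card_congr (Equiv.ofBijective φ hφ)
  rw [Nat.card_sum] at h1
  have hA : Nat.card (𝓞 K ⧸ P ^ a) = Ideal.absNorm P ^ a := by
    rw [← map_pow, Ideal.absNorm_apply]
    rfl
  have hq : Nat.card ((𝓞 K ⧸ P ^ a) ⧸ m) = Ideal.absNorm P := by
    rw [Nat.card_congr (DoubleQuot.quotQuotEquivQuotOfLE hle).toEquiv, Ideal.absNorm_apply]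
    rfl
  have h2 : Nat.card m * Ideal.absNorm P = Ideal.absNorm P ^ a := by
    have h3 := m.toAddSubgroup.card_mul_index
    have h4 : m.toAddSubgroup.index = Ideal.absNorm P := hq
    rw [h4] at h3
    rw [← hA]
    exact h3
  have hNP : 0 < Ideal.absNorm P :=
    Nat.pos_of_ne_zero fun h => hP.ne_zero (Ideal.absNorm_eq_zero_iff.1 h)
  have h5 : Nat.card m = Ideal.absNorm P ^ e := by
    have h6 : Ideal.absNorm P ^ a = Ideal.absNorm P ^ e * Ideal.absNorm P := by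
      rw [haa, pow_succ]
    rw [h6] at h2
    exact Nat.eq_of_mul_eq_mul_right hNP h2
  rw [h5, hA] at h1
  exact h1

omit [NumberField K] in
theorem units_mul {f g : Ideal (𝓞 K)} (hfg : f ⊔ g = ⊤) :
    Nat.card (𝓞 K ⧸ f * g)ˣ = Nat.card (𝓞 K ⧸ f)ˣ * Nat.card (𝓞 K ⧸ g)ˣ := by
  have hc : IsCoprime f g := Ideal.isCoprime_iff_sup_eq.2 hfg
  have e := Ideal.quotientMulEquivQuotientProd f g hc
  rw [Nat.card_congr (Units.mapEquiv e.toMulEquiv).toEquiv,
    Nat.card_congr MulEquiv.prodUnits.toEquiv, Nat.card_prod]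

theorem units_eq (f : Ideal (𝓞 K)) : f ≠ ⊥ → (Nat.card (𝓞 K ⧸ f)ˣ : ℝ) = ph f := by
  have htop : (Nat.card (𝓞 K ⧸ (⊤ : Ideal (𝓞 K)))ˣ : ℝ) = ph (⊤ : Ideal (𝓞 K)) := by
    have h1 : Subsingleton (𝓞 K ⧸ (⊤ : Ideal (𝓞 K))) := Ideal.Quotient.subsingleton_iff.2 rfl
    have h2 : Nat.card (𝓞 K ⧸ (⊤ : Ideal (𝓞 K)))ˣ = 1 := Nat.card_unique
    have h3 : pf (⊤ : Ideal (𝓞 K)) = ∅ := by
      ext P
      rw [mem_pf (bot_ne_top).symm]
      simp only [Finset.notMem_empty, iff_false, top_le_iff]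
      exact P.2.1.ne_top
    unfold ph
    rw [h2, h3, Finset.prod_empty]
    unfold nm
    rw [Ideal.absNorm_top]
    simp
  refine UniqueFactorizationMonoid.induction_on_coprime f ?_ ?_ ?_ ?_
  · intro h
    exact absurd rfl h
  · intro x hx _
    rw [Ideal.isUnit_iff.1 hx]
    exact htop
  · intro p i hp _
    cases i with
    | zero =>
      rw [pow_zero, Ideal.one_eq_top]
      exact htop
    | succ e =>
      have h1 := units_pow p hp e
      have h2 := ph_pow (K := K) ⟨p, Ideal.isPrime_of_prime hp, hp.ne_zero⟩ e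
      simp only at h2
      rw [h2]
      have h3 : (Nat.card (𝓞 K ⧸ p ^ (e + 1))ˣ : ℝ) + (Ideal.absNorm p : ℝ) ^ e =
          (Ideal.absNorm p : ℝ) ^ (e + 1) := by exact_mod_cast h1
      unfold np nm
      simp only
      have h4 : (Ideal.absNorm p : ℝ) ^ (e + 1) =
          (Ideal.absNorm p : ℝ) ^ e * (Ideal.absNorm p : ℝ) := pow_succ _ _
      linarith
  · intro x y hxy hx hy hne
    have hx0 : x ≠ ⊥ := fun h => hne (by rw [h, Ideal.bot_mul])
    have hy0 : y ≠ ⊥ := fun h => hne (by rw [h, Ideal.mul_bot])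
    have hs : x ⊔ y = ⊤ := Ideal.isUnit_iff.1
      (hxy (Ideal.dvd_iff_le.2 le_sup_left) (Ideal.dvd_iff_le.2 le_sup_right))
    rw [ph_mul hx0 hy0 hs, units_mul hs]
    push_cast
    rw [hx hx0, hy hy0]

end

theorem pf_PHN : Pool.Agent.H33.HH.T_PHN := by
  intro K _ _
  exact ⟨fun f hf => ⟨units_eq f hf, ph_pos hf, ph_le hf⟩, fun f g hf hg h => ph_mul hf hg h,
    ph_pow⟩

end Pool.Agent.H17.HH
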