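import Pool.Agent.H33.HH.TC

/-!
# Module DRV: derivatives of radial functions
-/

set_option autoImplicit false

open Filter Topology
open scoped ContDiff Nat

namespace Pool.Agent.H17.HH

open Pool.Agent.H33.HH

/-- bounds for the derivatives of a smooth function on the closed unit disc -/
theorem drv_bound (g : ℂ → ℝ) (hg : ContDiff ℝ ∞ g) (k : ℕ) : ∃ D : ℝ, 1 ≤ D ∧
    ∀ i, 1 ≤ i → i ≤ k → ∀ z : ℂ, ‖z‖ ≤ 1 → ‖iteratedFDeriv ℝ i g z‖ ≤ D ^ i := by
  have h1 : ∀ i : ℕ, ∃ B : ℝ, ∀ z ∈ Metric.closedBall (0 : ℂ) 1, ‖iteratedFDeriv ℝ i g z‖ ≤ B := by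
    intro i
    have hc : Continuous (iteratedFDeriv ℝ i g) := hg.continuous_iteratedFDeriv (by exact_mod_cast le_top)
    exact (isCompact_closedBall (0 : ℂ) 1).exists_bound_of_continuousOn hc.continuousOn
  choose B hB using h1
  have hB0 : ∀ i, 0 ≤ B i := fun i =>
    (norm_nonneg _).trans (hB i 0 (Metric.mem_closedBall_self zero_le_one))
  refine ⟨1 + ∑ i ∈ Finset.range (k + 1), B i, ?_, ?_⟩
  · have := Finset.sum_nonneg (fun i (_ : i ∈ Finset.range (k + 1)) => hB0 i)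
    linarith
  · intro i hi hik z hz
    have h2 : B i ≤ ∑ i ∈ Finset.range (k + 1), B i :=
      Finset.single_le_sum (fun i _ => hB0 i) (Finset.mem_range.2 (by omega))
    have h3 : (1 : ℝ) ≤ 1 + ∑ i ∈ Finset.range (k + 1), B i := by
      have := Finset.sum_nonneg (fun i (_ : i ∈ Finset.range (k + 1)) => hB0 i)
      linarith
    calc ‖iteratedFDeriv ℝ i g z‖ ≤ B i := hB i z (mem_closedBall_zero_iff.2 hz)
      _ ≤ 1 + ∑ i ∈ Finset.range (k + 1), B i := by linarith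
      _ = (1 + ∑ i ∈ Finset.range (k + 1), B i) ^ 1 := (pow_one _).symm
      _ ≤ _ := pow_le_pow_right₀ h3 hi

theorem pf_DRV : T_DRV := by
  intro k b hb
  have hg : ContDiff ℝ ∞ (fun z : ℂ => b * ‖z‖ ^ 2) := contDiff_const.mul (contDiff_norm_sq ℝ)
  obtain ⟨D, hD1, hD⟩ := drv_bound _ hg k
  refine ⟨k ! * D ^ k, by positivity, ?_⟩
  intro f M hf hM hf0
  have hM0 : 0 ≤ M := (abs_nonneg _).trans (hM 0 (Nat.zero_le _) 0 ⟨le_rfl, hb.le⟩)
  have hcomp : (fun z : ℂ => f (b * ‖z‖ ^ 2)) = f ∘ fun z : ℂ => b * ‖z‖ ^ 2 := rfl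
  refine ⟨hcomp ▸ hf.comp hg, fun z => ?_⟩
  rcases le_or_gt ‖z‖ 1 with hz | hz
  · rw [hcomp]
    have hzm : b * ‖z‖ ^ 2 ∈ Set.Icc 0 b := by
      refine ⟨by positivity, ?_⟩
      have : ‖z‖ ^ 2 ≤ 1 := pow_le_one₀ (norm_nonneg _) hz
      nlinarith
    have := norm_iteratedFDeriv_comp_le (𝕜 := ℝ) (n := k) hf hg (by exact_mod_cast le_top) z
      (C := M) (D := D) (fun i hi => by
        rw [norm_iteratedFDeriv_eq_norm_iteratedDeriv, Real.norm_eq_abs]
        exact hM i hi _ hzm) (fun i h1 h2 => hD i h1 h2 z hz)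
    calc _ ≤ (k ! : ℝ) * M * D ^ k := this
      _ = _ := by ring
  · have h0 : (fun z : ℂ => f (b * ‖z‖ ^ 2)) =ᶠ[𝓝 z] fun _ => 0 := by
      have : ∀ᶠ w in 𝓝 z, 1 < ‖w‖ := continuous_norm.continuousAt.eventually (lt_mem_nhds hz)
      filter_upwards [this] with w hw
      apply hf0
      have : 1 ≤ ‖w‖ ^ 2 := one_le_pow₀ hw.le
      nlinarith
    have h1 := Filter.EventuallyEq.iteratedFDeriv ℝ h0 k
    rw [h1.eq_of_nhds]
    simp only [iteratedFDeriv_fun_zero, Pi.zero_apply, norm_zero]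
    positivity

end Pool.Agent.H17.HH
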