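import Pool.Agent.H17.HH.PHN
import Pool.Agent.H63.HK.DS
import Pool.Agent.H46.HH.NRM

/-!
# Module PHW: the mean value of `phs`
-/

set_option autoImplicit false

open NumberField Filter Topology
open scoped nonZeroDivisors

namespace Pool.Agent.H17.HH

open Pool.Agent.H33.HH Pool.Agent.H28.RC Pool.Agent.H37.CV
open Pool.Agent.H3.CV (nm_mul mem_pf)

section

variable (K : Type) [Field K] [NumberField K]

/-- summability over the primes -/
theorem phw_summable (s : ℝ) (hs : 1 < s) : Summable fun P : PrI K => np P ^ (-s) := by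
  have h := (Pool.Agent.H63.HK.ds K (s : ℂ) (by simpa using hs)).1
  have h2 := h.comp_injective (i := fun P : PrI K => (⟨P.1, P.2.2⟩ : {I : Ideal (𝓞 K) // I ≠ ⊥}))
    (fun P Q hPQ => Subtype.ext
      (congrArg (fun z : {I : Ideal (𝓞 K) // I ≠ ⊥} => z.1) hPQ))
  refine h2.congr fun P => ?_
  have h0 : 0 < Ideal.absNorm P.1 :=
    Nat.pos_of_ne_zero fun h => P.2.2 (Ideal.absNorm_eq_zero_iff.1 h)
  simp only [Function.comp_apply]
  rw [Complex.norm_natCast_cpow_of_pos h0]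
  simp [np, nm]

/-- small tails -/
theorem phw_tail (η : ℝ) (hη : 0 < η) : ∃ P₀ : ℝ, ∀ P : ℝ, P₀ ≤ P → ∀ F : Finset (PrI K),
    (∀ p ∈ F, P < np p) → ∑ p ∈ F, np p ^ (-2 : ℝ) ≤ η := by
  have h := phw_summable K 2 (by norm_num)
  obtain ⟨F0, hF0⟩ := summable_iff_vanishing_norm.1 h η hη
  refine ⟨∑ p ∈ F0, np p, fun P hP F hF => ?_⟩
  have hd : Disjoint F F0 := by
    rw [Finset.disjoint_left]
    intro p hp hp0
    have h1 : np p ≤ ∑ p ∈ F0, np p :=
      Finset.single_le_sum (fun q _ => (by have := phn_np_two q; linarith)) hp0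
    have h2 := hF p hp
    linarith
  exact (le_abs_self _).trans (hF0 F hd).le

theorem phw_sum (s : ℝ) (hs : 1 < s) : ∃ S : ℝ, 0 ≤ S ∧ ∀ F : Finset (PrI K),
    ∑ p ∈ F, np p ^ (-s) ≤ S := by
  have h := phw_summable K s hs
  have h0 : ∀ p : PrI K, 0 ≤ np p ^ (-s) := fun p =>
    Real.rpow_nonneg (by have := phn_np_two p; linarith) _
  exact ⟨∑' p : PrI K, np p ^ (-s), tsum_nonneg h0, fun F => h.sum_le_tsum F fun p _ => h0 p⟩

theorem phw_fin (x : ℝ) : {I : NI K | nm I.1 ≤ x}.Finite := by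
  have hf : {I : Ideal (𝓞 K) | Ideal.absNorm I ≤ ⌊x⌋₊}.Finite :=
    Ideal.finite_setOfPred_absNorm_le _
  refine Set.Finite.of_injOn (f := fun l : NI K => l.1) (t := {I | Ideal.absNorm I ≤ ⌊x⌋₊})
    ?_ (Subtype.val_injective.injOn) hf
  intro l hl
  exact Nat.le_floor hl

open scoped Classical in
/-- sums over the ideals as finite sums -/
theorem phw_sumC (P Q : ℝ) (f : Ideal (𝓞 K) → ℝ) (hf : ∀ I, Q < nm I → f I = 0) :
    sumC P f = ∑ I ∈ (phw_fin K Q).toFinset, if Cp P I.1 then f I.1 else 0 := by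
  unfold sumC
  refine tsum_eq_sum fun I hI => ?_
  have h1 : ¬ nm I.1 ≤ Q := by simpa using hI
  rw [hf _ (not_le.1 h1), ite_self]

open scoped Classical in
/-- the number of multiples of `p` -/
theorem phw_count (P C Q : ℝ) (hC : ∀ x : ℝ, 1 ≤ x →
    |({I : Ideal (𝓞 K) | I ≠ ⊥ ∧ Cp P I ∧ nm I ≤ x}.ncard : ℝ) - rk K P * x| ≤
      C * x ^ (3 / 4 : ℝ)) (p : PrI K) (hp : np p ≤ Q) :
    (((phw_fin K Q).toFinset.filter fun I => Cp P I.1 ∧ p ∈ pf I.1).card : ℝ) ≤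
      rk K P * (Q / np p) + C * (Q / np p) ^ (3 / 4 : ℝ) := by
  have hp0 : 0 < np p := by have := phn_np_two p; linarith
  have hx : 1 ≤ Q / np p := (one_le_div hp0).2 hp
  have h1 := hC _ hx
  have hfin : {I : Ideal (𝓞 K) | I ≠ ⊥ ∧ Cp P I ∧ nm I ≤ Q / np p}.Finite := by
    refine ((phw_fin K (Q / np p)).image Subtype.val).subset ?_
    rintro I ⟨hI, -, h2⟩
    exact ⟨⟨I, hI⟩, h2, rfl⟩
  have h2 : ((phw_fin K Q).toFinset.filter fun I => Cp P I.1 ∧ p ∈ pf I.1).card ≤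
      {I : Ideal (𝓞 K) | I ≠ ⊥ ∧ Cp P I ∧ nm I ≤ Q / np p}.ncard := by
    rw [Set.ncard_eq_toFinset_card _ hfin]
    have hdv : ∀ I ∈ (phw_fin K Q).toFinset.filter (fun I => Cp P I.1 ∧ p ∈ pf I.1),
        p.1 ∣ I.1 := by
      intro I hI
      rw [Finset.mem_filter] at hI
      exact Ideal.dvd_iff_le.2 ((mem_pf I.2 p).1 hI.2.2)
    refine Finset.card_le_card_of_injOn
      (fun I : NI K => if h : p.1 ∣ I.1 then h.choose else ⊥) ?_ ?_
    · intro I hI
      have hd := hdv I hI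
      rw [Finset.mem_coe, Finset.mem_filter] at hI
      have hspec := hd.choose_spec
      have hJ : hd.choose ≠ ⊥ := fun h => I.2 (by rw [hspec, h, Ideal.mul_bot])
      rw [Finset.mem_coe, Set.Finite.mem_toFinset]
      simp only [dif_pos hd]
      refine ⟨hJ, ?_, ?_⟩
      · intro q hq
        refine hI.2.1 q ?_
        rw [hspec]
        exact Ideal.mul_le_right.trans hq
      · have h3 : nm I.1 ≤ Q := by simpa using hI.1
        rw [hspec, nm_mul] at h3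
        rw [le_div_iff₀ hp0]
        unfold np
        linarith [mul_comm (nm p.1) (nm hd.choose)]
    · intro I hI J hJ hIJ
      have hd := hdv I hI
      have hd' := hdv J hJ
      simp only [dif_pos hd, dif_pos hd'] at hIJ
      have h3 := hd.choose_spec
      have h4 := hd'.choose_spec
      rw [hIJ, ← h4] at h3
      exact Subtype.ext h3
  have h3 : (((phw_fin K Q).toFinset.filter fun I => Cp P I.1 ∧ p ∈ pf I.1).card : ℝ) ≤
      ({I : Ideal (𝓞 K) | I ≠ ⊥ ∧ Cp P I ∧ nm I ≤ Q / np p}.ncard : ℝ) := by exact_mod_cast h2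
  have h4 := (abs_le.1 h1).2
  linarith

open scoped Classical in
/-- the error term -/
noncomputable def phwE (P Q : ℝ) : ℝ := ∑ I ∈ (phw_fin K Q).toFinset,
  if Cp P I.1 then ∑ p ∈ pf I.1, 2 * (Q / np p) else 0

open scoped Classical in
theorem phwE_le (P C Q : ℝ) (hQ : 0 ≤ Q) (hC0 : 0 ≤ C) (hC : ∀ x : ℝ, 1 ≤ x →
    |({I : Ideal (𝓞 K) | I ≠ ⊥ ∧ Cp P I ∧ nm I ≤ x}.ncard : ℝ) - rk K P * x| ≤
      C * x ^ (3 / 4 : ℝ)) (η S : ℝ) (hη : ∀ F : Finset (PrI K), (∀ p ∈ F, P < np p) →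
      ∑ p ∈ F, np p ^ (-2 : ℝ) ≤ η) (hS : ∀ F : Finset (PrI K),
      ∑ p ∈ F, np p ^ (-(7 / 4) : ℝ) ≤ S) (hrk : 0 ≤ rk K P) :
    phwE K P Q ≤ 2 * rk K P * Q ^ 2 * η + 2 * C * Q ^ (7 / 4 : ℝ) * S := by
  set 𝒮 := (phw_fin K Q).toFinset with hS𝒮
  set F : Finset (PrI K) := (𝒮.filter fun I => Cp P I.1).biUnion fun I => pf I.1 with hF
  have hmem : ∀ p ∈ F, P < np p ∧ np p ≤ Q := by
    intro p hp
    rw [hF, Finset.mem_biUnion] at hp
    obtain ⟨I, hI, hpI⟩ := hp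
    rw [Finset.mem_filter] at hI
    have h1 : I.1 ≤ p.1 := (mem_pf I.2 p).1 hpI
    refine ⟨hI.2 p h1, ?_⟩
    have h2 : nm I.1 ≤ Q := by simpa [hS𝒮] using hI.1
    refine le_trans ?_ h2
    unfold np nm
    have h3 : Ideal.absNorm p.1 ∣ Ideal.absNorm I.1 :=
      Ideal.absNorm_dvd_absNorm_of_le h1
    have h4 : 0 < Ideal.absNorm I.1 :=
      Nat.pos_of_ne_zero fun h => I.2 (Ideal.absNorm_eq_zero_iff.1 h)
    exact_mod_cast Nat.le_of_dvd h4 h3
  have h1 : phwE K P Q = ∑ p ∈ F, 2 * (Q / np p) *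
      ((𝒮.filter fun I => Cp P I.1 ∧ p ∈ pf I.1).card : ℝ) := by
    unfold phwE
    rw [← hS𝒮]
    have h2 : ∀ I ∈ 𝒮, (if Cp P I.1 then ∑ p ∈ pf I.1, 2 * (Q / np p) else 0) =
        ∑ p ∈ F, if Cp P I.1 ∧ p ∈ pf I.1 then 2 * (Q / np p) else 0 := by
      intro I hI
      by_cases hc : Cp P I.1
      · rw [if_pos hc]
        have hsub : pf I.1 ⊆ F := by
          intro p hp
          rw [hF, Finset.mem_biUnion]
          exact ⟨I, Finset.mem_filter.2 ⟨hI, hc⟩, hp⟩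
        simp only [hc, true_and]
        rw [← Finset.sum_filter, Finset.filter_mem_eq_inter, Finset.inter_eq_right.2 hsub]
      · rw [if_neg hc]
        simp only [hc, false_and, if_false, Finset.sum_const_zero]
    rw [Finset.sum_congr rfl h2, Finset.sum_comm]
    refine Finset.sum_congr rfl fun p _ => ?_
    rw [← Finset.sum_filter, Finset.sum_const, nsmul_eq_mul]
    ring
  rw [h1]
  have h3 : ∀ p ∈ F, 2 * (Q / np p) *
      ((𝒮.filter fun I => Cp P I.1 ∧ p ∈ pf I.1).card : ℝ) ≤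
      2 * rk K P * Q ^ 2 * np p ^ (-2 : ℝ) +
        2 * C * Q ^ (7 / 4 : ℝ) * np p ^ (-(7 / 4) : ℝ) := by
    intro p hp
    obtain ⟨-, hpQ⟩ := hmem p hp
    have hp0 : 0 < np p := by have := phn_np_two p; linarith
    have h4 := phw_count K P C Q hC p hpQ
    have hx0 : 0 ≤ Q / np p := div_nonneg hQ hp0.le
    have h5 : 2 * (Q / np p) * (rk K P * (Q / np p) + C * (Q / np p) ^ (3 / 4 : ℝ)) =
        2 * rk K P * Q ^ 2 * np p ^ (-2 : ℝ) +
        2 * C * Q ^ (7 / 4 : ℝ) * np p ^ (-(7 / 4) : ℝ) := by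
      have h6 : np p ^ (-2 : ℝ) = (np p ^ 2)⁻¹ := by
        rw [Real.rpow_neg hp0.le]
        norm_num
      have h7 : (Q / np p) * (Q / np p) ^ (3 / 4 : ℝ) = Q ^ (7 / 4 : ℝ) * np p ^ (-(7 / 4) : ℝ) := by
        have h8 : (Q / np p) * (Q / np p) ^ (3 / 4 : ℝ) = (Q / np p) ^ (7 / 4 : ℝ) := by
          have hQp : 0 < Q / np p := div_pos (hp0.trans_le hpQ) hp0
          nth_rewrite 1 [← Real.rpow_one (Q / np p)]
          rw [← Real.rpow_add hQp]
          norm_num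
        rw [h8, Real.div_rpow hQ hp0.le, Real.rpow_neg hp0.le, div_eq_mul_inv]
      have h9 : 2 * (Q / np p) * (rk K P * (Q / np p) + C * (Q / np p) ^ (3 / 4 : ℝ)) =
          2 * rk K P * (Q / np p) ^ 2 + 2 * C * ((Q / np p) * (Q / np p) ^ (3 / 4 : ℝ)) := by ring
      rw [h9, h7, h6]
      field_simp
    calc _ ≤ 2 * (Q / np p) * (rk K P * (Q / np p) + C * (Q / np p) ^ (3 / 4 : ℝ)) :=
          mul_le_mul_of_nonneg_left h4 (by positivity)
      _ = _ := h5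
  refine (Finset.sum_le_sum h3).trans ?_
  rw [Finset.sum_add_distrib, ← Finset.mul_sum, ← Finset.mul_sum]
  have hQ7 : 0 ≤ Q ^ (7 / 4 : ℝ) := Real.rpow_nonneg hQ _
  exact add_le_add (mul_le_mul_of_nonneg_left (hη F fun p hp => (hmem p hp).1) (by positivity))
    (mul_le_mul_of_nonneg_left (hS F) (by positivity))

end

theorem rk_pos' (K : Type) [Field K] [NumberField K] (hw : 0 < wu K) (P : ℝ) : 0 < rk K P := by
  unfold rk rh
  have h1 : 0 < hc K := by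
    unfold hc
    exact_mod_cast Nat.pos_of_ne_zero (classNumber_ne_zero K)
  have h2 : 0 < sd K := by
    unfold sd
    refine Real.sqrt_pos.2 (abs_pos.2 ?_)
    exact_mod_cast NumberField.discr_ne_zero K
  have h3 : 0 < ∏ p ∈ SP K P, (1 - 1 / np p) := Finset.prod_pos fun p _ => (phn_fac p).1
  positivity

theorem pf_PHW (hPHM : T_PHM) (hCNT : T_CNT) (hTWA : T_TWA) :
    Pool.Agent.H33.HH.T_PHW := by
  classical
  intro K _ _ _ W hW hW1 ε hε
  have hwu : 0 < wu K := (Pool.Agent.H46.HH.pf_NRM K).2.1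
  obtain ⟨P₀, hP₀⟩ := phw_tail K (ε * W1 W / 8) (by positivity)
  refine ⟨P₀, fun P hP => ?_⟩
  obtain ⟨C, hC0, hC⟩ := hCNT K P
  obtain ⟨C', hC'0, hC'⟩ := hTWA K P W hW
  obtain ⟨S, hS0, hS⟩ := phw_sum K (7 / 4) (by norm_num)
  have hrk := rk_pos' K hwu P
  -- the size of `Q`
  have hlim : Tendsto (fun Q : ℝ => Q ^ (-(1 / 4) : ℝ)) atTop (𝓝 0) :=
    tendsto_rpow_neg_atTop (by norm_num)
  have hδ : 0 < min (rk K P * W1 W / (2 * (C' + 1))) (ε * rk K P * W1 W / (8 * (C * S + 1))) :=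
    lt_min (by positivity) (by positivity)
  obtain ⟨Q₀, hQ₀⟩ := Filter.eventually_atTop.1 (hlim.eventually (gt_mem_nhds hδ))
  refine ⟨max Q₀ 1, le_max_right _ _, fun Q hQ => ?_⟩
  have hQ1 : 1 ≤ Q := (le_max_right _ _).trans hQ
  have hQ0 : 0 < Q := by linarith
  have hsm := hQ₀ Q ((le_max_left _ _).trans hQ)
  have hs1 : Q ^ (-(1 / 4) : ℝ) < rk K P * W1 W / (2 * (C' + 1)) :=
    lt_of_lt_of_le hsm (min_le_left _ _)
  have hs2 : Q ^ (-(1 / 4) : ℝ) < ε * rk K P * W1 W / (8 * (C * S + 1)) :=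
    lt_of_lt_of_le hsm (min_le_right _ _)
  have hQ74 : Q ^ (7 / 4 : ℝ) = Q ^ 2 * Q ^ (-(1 / 4) : ℝ) := by
    rw [← Real.rpow_natCast Q 2, ← Real.rpow_add hQ0]
    norm_num
  have hq0 : 0 < Q ^ (-(1 / 4) : ℝ) := Real.rpow_pos_of_pos hQ0 _
  -- lower bound for `TW`
  have hTW : rk K P * W1 W * Q ^ 2 / 2 ≤ TW K P Q W := by
    have h1 := (abs_le.1 (hC' Q hQ1)).1
    have h2 : C' * Q ^ (7 / 4 : ℝ) ≤ rk K P * W1 W * Q ^ 2 / 2 := by
      rw [hQ74]
      rw [lt_div_iff₀ (by positivity)] at hs1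
      have h3 : C' * Q ^ (-(1 / 4) : ℝ) ≤ rk K P * W1 W / 2 := by nlinarith
      calc C' * (Q ^ 2 * Q ^ (-(1 / 4) : ℝ)) = Q ^ 2 * (C' * Q ^ (-(1 / 4) : ℝ)) := by ring
        _ ≤ Q ^ 2 * (rk K P * W1 W / 2) := mul_le_mul_of_nonneg_left h3 (by positivity)
        _ = _ := by ring
    linarith
  have hE := phwE_le K P C Q hQ0.le hC0 hC (ε * W1 W / 8) S (hP₀ P hP) hS hrk.le
  have hE2 : phwE K P Q ≤ ε * TW K P Q W := by
    have h1 : 2 * C * Q ^ (7 / 4 : ℝ) * S ≤ ε * (rk K P * W1 W * Q ^ 2) / 4 := by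
      rw [hQ74]
      rw [lt_div_iff₀ (by positivity)] at hs2
      have h3 : C * S * Q ^ (-(1 / 4) : ℝ) ≤ ε * rk K P * W1 W / 8 := by nlinarith
      calc 2 * C * (Q ^ 2 * Q ^ (-(1 / 4) : ℝ)) * S =
            2 * Q ^ 2 * (C * S * Q ^ (-(1 / 4) : ℝ)) := by ring
        _ ≤ 2 * Q ^ 2 * (ε * rk K P * W1 W / 8) := mul_le_mul_of_nonneg_left h3 (by positivity)
        _ = _ := by ring
    have h2 : ε * (rk K P * W1 W * Q ^ 2 / 2) ≤ ε * TW K P Q W :=
      mul_le_mul_of_nonneg_left hTW hε.le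
    nlinarith
  -- comparison of the sums
  have hWz : ∀ I : Ideal (𝓞 K), Q < nm I → W (nm I / Q) = 0 := fun I hI =>
    hW.high _ ((one_le_div hQ0).2 hI.le)
  have e1 : sumC P (fun q : Ideal (𝓞 K) => W (nm q / Q) * phs q) =
      ∑ I ∈ (phw_fin K Q).toFinset, if Cp P I.1 then W (nm I.1 / Q) * phs I.1 else 0 :=
    phw_sumC K P Q _ fun I hI => by rw [hWz I hI, zero_mul]
  have e2 : TW K P Q W =
      ∑ I ∈ (phw_fin K Q).toFinset, if Cp P I.1 then W (nm I.1 / Q) * nm I.1 else 0 := by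
    unfold TW
    exact phw_sumC K P Q _ fun I hI => by rw [hWz I hI, zero_mul]
  have h5 : TW K P Q W - phwE K P Q ≤ sumC P (fun q : Ideal (𝓞 K) => W (nm q / Q) * phs q) := by
    rw [e1, e2]
    unfold phwE
    rw [← Finset.sum_sub_distrib]
    refine Finset.sum_le_sum fun I hI => ?_
    by_cases hcp : Cp P I.1
    · rw [if_pos hcp, if_pos hcp, if_pos hcp]
      have h6 := ((hPHM K).2.2 I.1 I.2).2.2
      have hI' : nm I.1 ≤ Q := by simpa using hI
      obtain ⟨hw0, hw1⟩ := hW.bd (nm I.1 / Q)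
      have h7 : ∑ p ∈ pf I.1, 2 * (nm I.1 / np p) ≤ ∑ p ∈ pf I.1, 2 * (Q / np p) := by
        refine Finset.sum_le_sum fun p _ => ?_
        have hp0 : 0 < np p := by have := phn_np_two p; linarith
        have := div_le_div_of_nonneg_right hI' hp0.le
        linarith
      have h8 : 0 ≤ ∑ p ∈ pf I.1, 2 * (Q / np p) := Finset.sum_nonneg fun p _ => by
        have hp0 : 0 < np p := by have := phn_np_two p; linarith
        positivity
      have h9 : W (nm I.1 / Q) * ∑ p ∈ pf I.1, 2 * (nm I.1 / np p) ≤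
          ∑ p ∈ pf I.1, 2 * (Q / np p) := by
        calc _ ≤ W (nm I.1 / Q) * ∑ p ∈ pf I.1, 2 * (Q / np p) :=
              mul_le_mul_of_nonneg_left h7 hw0
          _ ≤ 1 * ∑ p ∈ pf I.1, 2 * (Q / np p) := mul_le_mul_of_nonneg_right hw1 h8
          _ = _ := one_mul _
      have h10 := mul_le_mul_of_nonneg_left h6 hw0
      rw [mul_sub] at h10
      linarith
    · rw [if_neg hcp, if_neg hcp, if_neg hcp, sub_zero]
  linarith

end Pool.Agent.H17.HH
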