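import Pool.Agent.H33.HH.TC

/-!
# Module THS: sums over the complementary divisors
-/

set_option autoImplicit false

open NumberField Filter Topology MeasureTheory
open scoped ContDiff nonZeroDivisors

namespace Pool.Agent.H17.HH

open Pool.Agent.H33.HH Pool.Agent.H28.RC Pool.Agent.H37.CV

/-- the function `w` at the inverse -/
noncomputable def vv (w : ℝ → ℝ) (s : ℝ) : ℝ := s⁻¹ * w s⁻¹

section

variable {w : ℝ → ℝ} {δ : ℝ}

theorem vv_le_one (hδ : 0 < δ) (h1 : ∀ u, u ≤ δ → w u = 0) (h2 : ∀ u, 1 ≤ u → w u = 0) (s : ℝ)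
    (hs : s ≤ 1) : vv w s = 0 := by
  unfold vv
  rcases le_or_gt s 0 with h | h
  · rw [h1 _ ((inv_nonpos.2 h).trans hδ.le), mul_zero]
  · rw [h2 _ ((one_le_inv₀ h).2 hs), mul_zero]

theorem vv_ge (hδ : 0 < δ) (h1 : ∀ u, u ≤ δ → w u = 0) (s : ℝ) (hs : δ⁻¹ ≤ s) : vv w s = 0 := by
  unfold vv
  rw [h1 _ ?_, mul_zero]
  have hp : 0 < δ⁻¹ := inv_pos.2 hδ
  exact (inv_le_comm₀ (hp.trans_le hs) hδ).2 hs

theorem vv_smooth (hw : ContDiff ℝ ∞ w) (hδ : 0 < δ) (h1 : ∀ u, u ≤ δ → w u = 0)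
    (h2 : ∀ u, 1 ≤ u → w u = 0) : ContDiff ℝ ∞ (vv w) := by
  rw [contDiff_iff_contDiffAt]
  intro s
  rcases le_or_gt s 0 with h | h
  · have h0 : vv w =ᶠ[𝓝 s] fun _ => 0 := by
      filter_upwards [Iio_mem_nhds (lt_of_le_of_lt h zero_lt_one)] with t ht
      exact vv_le_one hδ h1 h2 t (le_of_lt ht)
    exact contDiffAt_const.congr_of_eventuallyEq h0
  · have hinv : ContDiffAt ℝ ∞ (fun t : ℝ => t⁻¹) s := contDiffAt_inv ℝ h.ne'
    exact hinv.mul (hw.contDiffAt.comp s hinv)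

theorem vv_int (w : ℝ → ℝ) : ∫ s in Set.Ioi (0 : ℝ), vv w s = ∫ u in Set.Ioi (0 : ℝ), w u / u := by
  rw [← integral_comp_rpow_Ioi (fun u => w u / u) (p := -1) (by norm_num)]
  refine setIntegral_congr_fun measurableSet_Ioi fun s hs => ?_
  have hs0 : (0 : ℝ) < s := hs
  simp only [vv, smul_eq_mul, Real.rpow_neg_one, abs_neg, abs_one, one_mul]
  have h2 : s ^ ((-1 : ℝ) - 1) = s⁻¹ * s⁻¹ := by
    rw [show (-1 : ℝ) - 1 = -2 by norm_num, Real.rpow_neg hs0.le]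
    rw [show (2 : ℝ) = ((2 : ℕ) : ℝ) by norm_num, Real.rpow_natCast, pow_two, mul_inv]
  rw [h2]
  field_simp

theorem bdd_Icc (f : ℝ → ℝ) (hf : ContDiff ℝ ∞ f) (k : ℕ) (b : ℝ) : ∃ M : ℝ, 0 ≤ M ∧
    ∀ j ≤ k, ∀ u ∈ Set.Icc 0 b, |iteratedDeriv j f u| ≤ M := by
  have h1 : ∀ j : ℕ, ∃ B : ℝ, 0 ≤ B ∧ ∀ u ∈ Set.Icc 0 b, |iteratedDeriv j f u| ≤ B := by
    intro j
    have hc : Continuous (iteratedDeriv j f) := hf.continuous_iteratedDeriv j (by exact_mod_cast le_top)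
    obtain ⟨B, hB⟩ := isCompact_Icc.exists_bound_of_continuousOn (s := Set.Icc 0 b) hc.continuousOn
    exact ⟨max B 0, le_max_right _ _, fun u hu => (hB u hu).trans (le_max_left _ _)⟩
  choose B hB0 hB using h1
  refine ⟨∑ j ∈ Finset.range (k + 1), B j, Finset.sum_nonneg fun j _ => hB0 j, ?_⟩
  intro j hj u hu
  exact (hB j u hu).trans (Finset.single_le_sum (f := B) (fun j _ => hB0 j)
    (Finset.mem_range.2 (by omega)))

end

theorem ths_small (K : Type) [Field K] [NumberField K] (w : ℝ → ℝ) (δ : ℝ)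
    (hw : ContDiff ℝ ∞ w) (hδ : 0 < δ) (h1 : ∀ u, u ≤ δ → w u = 0) (h2 : ∀ u, 1 ≤ u → w u = 0) :
    ∃ C : ℝ, 0 ≤ C ∧ ∀ x, 0 ≤ x → x ≤ 1 →
      |∑' l : NI K, (nm l.1)⁻¹ * w (x / nm l.1)| ≤ C := by
  obtain ⟨B, hB0, hB⟩ := bdd_Icc w hw 0 1
  have hwB : ∀ u, |w u| ≤ B := by
    intro u
    rcases le_or_gt u δ with h | h
    · rw [h1 u h, abs_zero]; exact hB0
    · rcases le_or_gt 1 u with h' | h'
      · rw [h2 u h', abs_zero]; exact hB0
      · have := hB 0 le_rfl u ⟨(hδ.trans h).le, h'.le⟩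
        simpa using this
  have hfin : {l : NI K | nm l.1 ≤ δ⁻¹}.Finite := by
    have hf : {I : Ideal (𝓞 K) | Ideal.absNorm I ≤ ⌊δ⁻¹⌋₊}.Finite :=
      Ideal.finite_setOfPred_absNorm_le _
    refine Set.Finite.of_injOn (f := fun l : NI K => l.1) (t := {I | Ideal.absNorm I ≤ ⌊δ⁻¹⌋₊})
      ?_ (Subtype.val_injective.injOn) hf
    intro l hl
    exact Nat.le_floor hl
  refine ⟨(hfin.toFinset.card : ℝ) * B, by positivity, ?_⟩
  intro x hx0 hx1
  have hpos : ∀ l : NI K, 1 ≤ nm l.1 := by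
    intro l
    unfold nm
    have h0 : Ideal.absNorm l.1 ≠ 0 := fun h => l.2 (Ideal.absNorm_eq_zero_iff.1 h)
    exact_mod_cast Nat.one_le_iff_ne_zero.2 h0
  have hz : ∀ l ∉ hfin.toFinset, (nm l.1)⁻¹ * w (x / nm l.1) = 0 := by
    intro l hl
    have hl' : ¬ nm l.1 ≤ δ⁻¹ := by simpa using hl
    push Not at hl'
    rw [h1, mul_zero]
    have hp : 0 < nm l.1 := lt_of_lt_of_le zero_lt_one (hpos l)
    rw [div_le_iff₀ hp]
    have : 1 ≤ δ * nm l.1 := by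
      rw [inv_lt_iff_one_lt_mul₀ hδ] at hl'
      linarith
    linarith
  rw [tsum_eq_sum hz]
  refine (Finset.abs_sum_le_sum_abs _ _).trans ?_
  rw [← nsmul_eq_mul]
  refine Finset.sum_le_card_nsmul _ _ _ fun l _ => ?_
  rw [abs_mul, abs_of_nonneg (inv_nonneg.2 (zero_le_one.trans (hpos l)))]
  calc (nm l.1)⁻¹ * |w (x / nm l.1)| ≤ 1 * B :=
        mul_le_mul (inv_le_one_of_one_le₀ (hpos l)) (hwB _) (abs_nonneg _) zero_le_one
    _ = B := one_mul B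

theorem pf_THS (h : T_IDS) : T_THS := by
  intro K _ _ _ w δ hw hδ h1 h2 A
  obtain ⟨C0, hC0, hs⟩ := ths_small K w δ hw hδ h1 h2
  obtain ⟨C1, hC1, hI⟩ := h K (2 * A + 2) δ⁻¹ (by omega) (inv_pos.2 hδ)
  have hv := vv_smooth hw hδ h1 h2
  obtain ⟨M, hM0, hM⟩ := bdd_Icc (vv w) hv (2 * A + 2) δ⁻¹
  set R := rh K * ∫ u in Set.Ioi (0 : ℝ), w u / u with hR
  refine ⟨2 ^ A * (C0 + |R| + C1 * M), by positivity, ?_⟩
  intro x hx
  rcases le_or_gt x 1 with hx1 | hx1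
  · have h3 : |(∑' l : NI K, (nm l.1)⁻¹ * w (x / nm l.1)) - R| ≤ C0 + |R| :=
      (abs_sub _ _).trans (by linarith [hs x hx hx1])
    refine h3.trans ?_
    rw [le_div_iff₀ (by positivity)]
    have h4 : (1 + x) ^ A ≤ 2 ^ A := pow_le_pow_left₀ (by linarith) (by linarith) A
    calc (C0 + |R|) * (1 + x) ^ A ≤ (C0 + |R| + C1 * M) * 2 ^ A := by
          refine mul_le_mul ?_ h4 (by positivity) (by positivity)
          have : 0 ≤ C1 * M := mul_nonneg hC1 hM0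
          linarith
      _ = _ := by ring
  · have hx0 : 0 < x := zero_lt_one.trans hx1
    have h3 := hI (vv w) M x hv (fun u hu => vv_ge hδ h1 u hu) hM hx1.le
    rw [vv_le_one hδ h1 h2 0 zero_le_one, mul_zero, add_zero, vv_int] at h3
    have h4 : ∑' l : NI K, (nm l.1)⁻¹ * w (x / nm l.1) = x⁻¹ * ∑' l : NI K, vv w (nm l.1 / x) := by
      rw [← tsum_mul_left]
      refine tsum_congr fun l => ?_
      unfold vv
      rw [inv_div]
      field_simp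
    have h5 : (∑' l : NI K, (nm l.1)⁻¹ * w (x / nm l.1)) - R =
        x⁻¹ * ((∑' l : NI K, vv w (nm l.1 / x)) - rh K * x * ∫ u in Set.Ioi (0 : ℝ), w u / u) := by
      rw [h4, hR]
      field_simp
    rw [h5, abs_mul, abs_of_pos (inv_pos.2 hx0)]
    have h6 : x⁻¹ * (C1 * M * x ^ (1 - ((2 * A + 2 : ℕ) : ℝ) / 2)) = C1 * M * x⁻¹ ^ (A + 1) := by
      have h7 : (1 : ℝ) - ((2 * A + 2 : ℕ) : ℝ) / 2 = -(A : ℝ) := by
        push_cast
        ring
      rw [h7, Real.rpow_neg hx0.le, Real.rpow_natCast, pow_succ, inv_pow]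
      ring
    have h8 : x⁻¹ ^ (A + 1) ≤ x⁻¹ ^ A :=
      pow_le_pow_of_le_one (inv_nonneg.2 hx0.le) (inv_le_one_of_one_le₀ hx1.le) (Nat.le_succ A)
    have h9 : x⁻¹ ^ A ≤ 2 ^ A / (1 + x) ^ A := by
      rw [← div_pow]
      refine pow_le_pow_left₀ (inv_nonneg.2 hx0.le) ?_ A
      rw [inv_eq_one_div, div_le_div_iff₀ hx0 (by linarith)]
      linarith
    calc _ ≤ x⁻¹ * (C1 * M * x ^ (1 - ((2 * A + 2 : ℕ) : ℝ) / 2)) :=
          mul_le_mul_of_nonneg_left h3 (inv_nonneg.2 hx0.le)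
      _ = C1 * M * x⁻¹ ^ (A + 1) := h6
      _ ≤ C1 * M * (2 ^ A / (1 + x) ^ A) :=
          mul_le_mul_of_nonneg_left (h8.trans h9) (mul_nonneg hC1 hM0)
      _ ≤ (C0 + |R| + C1 * M) * (2 ^ A / (1 + x) ^ A) := by
          refine mul_le_mul_of_nonneg_right ?_ (by positivity)
          have := abs_nonneg R
          linarith
      _ = _ := by ring

end Pool.Agent.H17.HH
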